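import Mathlib

/-!
# `Int_K(A, A')` is the integral closure of `Int_K(A)`

Let `D` be an integrally closed domain with field of fractions `K`, let `A` be a `D`-algebra which is
a finitely generated torsion-free `D`-module, and let `B = K ⊗_D A`, `n = dim_K B`. For
`f ∈ Int_K(A, A')` of degree `r` put `T = (r+1)^n` and `G = X^T ∏_{l=1}^T (X^l - 1)`. We show that
`F = G(f)^N` maps `A` to `A` for an explicit `N = N(r, n)`. So `f` is a root of the monic
polynomial `G(Y)^N - F` over `Int_K(A)`.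

This is checked at every maximal ideal `𝔪` of `D`. If `D/𝔪` has more than `r` elements then
`f ∈ D_𝔪[X]` by Lagrange interpolation. Otherwise let `b = f(a)`, a root of a monic `M ∈ D[X]` of
degree at most `n`. The finite ring `(D/𝔪)[X]/(M)` has at most `T` elements and so `G` vanishes on
it. So `G(b)` is a linear combination of the `b^l`, `l < n`, with coefficients in `𝔪`. For
`t ∈ 𝔪` interpolation at the powers of `t` shows that `t^w f^l ∈ D_𝔪[X]` for `l < n` and a
`w = w(r, n)`. So for large `N` the coefficients of `G(b)^N` kill the denominators of the `b^l`.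
-/

open Polynomial

namespace Pool.Agent.Results.MP_457b0e_al.IntegralClosure

section loc

variable {D K B : Type*} [CommRing D] [IsDomain D] [Field K] [Algebra D K] [IsFractionRing D K]
  [Ring B] [Algebra K B] [Algebra D B] [IsScalarTower D K B]

/-- The localization `D_𝔪` as a subring of `K`. -/
def Dm (K : Type*) [Field K] [Algebra D K] (𝔪 : Ideal D) [h𝔪 : 𝔪.IsPrime] : Subring K where
  carrier := {κ | ∃ s ∉ 𝔪, ∃ d, algebraMap D K s * κ = algebraMap D K d}
  mul_mem' := by
    rintro a b ⟨s, hs, d, hd⟩ ⟨t, ht, e, he⟩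
    refine ⟨s * t, fun h => (h𝔪.mem_or_mem h).elim hs ht, d * e, ?_⟩
    rw [map_mul, map_mul, ← hd, ← he]; ring
  one_mem' := ⟨1, fun h => h𝔪.ne_top ((Ideal.eq_top_iff_one _).2 h), 1, by simp⟩
  add_mem' := by
    rintro a b ⟨s, hs, d, hd⟩ ⟨t, ht, e, he⟩
    refine ⟨s * t, fun h => (h𝔪.mem_or_mem h).elim hs ht, t * d + s * e, ?_⟩
    rw [map_mul, map_add, map_mul, map_mul, ← hd, ← he]; ring
  zero_mem' := ⟨1, fun h => h𝔪.ne_top ((Ideal.eq_top_iff_one _).2 h), 0, by simp⟩
  neg_mem' := by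
    rintro a ⟨s, hs, d, hd⟩
    exact ⟨s, hs, -d, by rw [map_neg, ← hd]; ring⟩

theorem map_mem_Dm {𝔪 : Ideal D} [𝔪.IsPrime] (d : D) : algebraMap D K d ∈ Dm K 𝔪 :=
  ⟨1, fun h => Ideal.IsPrime.ne_top ‹_› ((Ideal.eq_top_iff_one _).2 h), d, by simp⟩

/-- The localization `A_𝔪` as a subalgebra of `B`. -/
def Sm (𝔪 : Ideal D) [h𝔪 : 𝔪.IsPrime] (A : Subalgebra D B) : Subalgebra D B where
  carrier := {x | ∃ s ∉ 𝔪, s • x ∈ A}
  mul_mem' := by
    rintro a b ⟨s, hs, ha⟩ ⟨t, ht, hb⟩
    refine ⟨s * t, fun h => (h𝔪.mem_or_mem h).elim hs ht, ?_⟩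
    have : (s * t) • (a * b) = (s • a) * (t • b) := by
      rw [smul_mul_smul_comm]
    rw [this]
    exact A.mul_mem ha hb
  add_mem' := by
    rintro a b ⟨s, hs, ha⟩ ⟨t, ht, hb⟩
    refine ⟨s * t, fun h => (h𝔪.mem_or_mem h).elim hs ht, ?_⟩
    have : (s * t) • (a + b) = t • (s • a) + s • (t • b) := by
      rw [smul_add, smul_smul, smul_smul, mul_comm t s]
    rw [this]
    exact A.add_mem (A.smul_mem ha t) (A.smul_mem hb s)
  algebraMap_mem' := fun d => ⟨1, fun h => h𝔪.ne_top ((Ideal.eq_top_iff_one _).2 h), by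
    rw [one_smul]; exact A.algebraMap_mem d⟩

theorem le_Sm {𝔪 : Ideal D} [h𝔪 : 𝔪.IsPrime] (A : Subalgebra D B) {a : B} (ha : a ∈ A) :
    a ∈ Sm 𝔪 A :=
  ⟨1, fun h => h𝔪.ne_top ((Ideal.eq_top_iff_one _).2 h), by rwa [one_smul]⟩

theorem smul_mem_Sm {𝔪 : Ideal D} [h𝔪 : 𝔪.IsPrime] (A : Subalgebra D B) {κ : K}
    (hκ : κ ∈ Dm K 𝔪) {x : B} (hx : x ∈ Sm 𝔪 A) : κ • x ∈ Sm 𝔪 A := by
  obtain ⟨s, hs, d, hd⟩ := hκ
  obtain ⟨t, ht, hx⟩ := hx
  refine ⟨s * t, fun h => (h𝔪.mem_or_mem h).elim hs ht, ?_⟩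
  have : (s * t) • κ • x = d • (t • x) := by
    rw [← algebraMap_smul K (s * t), smul_smul, ← algebraMap_smul K d, ← algebraMap_smul K t,
      smul_smul, ← hd, map_mul]
    congr 1
    ring
  rw [this]
  exact A.smul_mem hx d

/-- polynomials with coefficients in `D_𝔪` -/
def Dpoly (K : Type*) [Field K] [Algebra D K] (𝔪 : Ideal D) [h𝔪 : 𝔪.IsPrime] : Subring K[X] where
  carrier := {p | ∀ n, p.coeff n ∈ Dm K 𝔪}
  mul_mem' := by
    intro a b ha hb n
    rw [coeff_mul]
    exact Subring.sum_mem _ fun i _ => Subring.mul_mem _ (ha _) (hb _)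
  one_mem' := by
    intro n
    rw [coeff_one]
    split_ifs
    · exact Subring.one_mem _
    · exact Subring.zero_mem _
  add_mem' := by
    intro a b ha hb n
    rw [coeff_add]
    exact Subring.add_mem _ (ha _) (hb _)
  zero_mem' := by
    intro n
    rw [coeff_zero]
    exact Subring.zero_mem _
  neg_mem' := by
    intro a ha n
    rw [coeff_neg]
    exact Subring.neg_mem _ (ha _)

theorem C_mem_Dpoly {𝔪 : Ideal D} [h𝔪 : 𝔪.IsPrime] {κ : K} (hκ : κ ∈ Dm K 𝔪) :
    C κ ∈ Dpoly K 𝔪 := by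
  intro n
  rw [coeff_C]
  split_ifs
  · exact hκ
  · exact Subring.zero_mem _

theorem X_mem_Dpoly {𝔪 : Ideal D} [h𝔪 : 𝔪.IsPrime] : (X : K[X]) ∈ Dpoly K 𝔪 := by
  intro n
  rw [coeff_X]
  split_ifs
  · exact Subring.one_mem _
  · exact Subring.zero_mem _

theorem aeval_mem_Sm {𝔪 : Ideal D} [h𝔪 : 𝔪.IsPrime] (A : Subalgebra D B) {p : K[X]}
    (hp : p ∈ Dpoly K 𝔪) {a : B} (ha : a ∈ A) : aeval a p ∈ Sm 𝔪 A := by
  rw [aeval_eq_sum_range]
  exact Subalgebra.sum_mem _ fun i _ => smul_mem_Sm A (hp i) (le_Sm A (A.pow_mem ha i))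

/-- Lagrange interpolation. -/
theorem interp {𝔪 : Ideal D} [h𝔪 : 𝔪.IsPrime] {ι : Type*} [DecidableEq ι] (s : Finset ι)
    (v : ι → D) (hv : Set.InjOn (fun i => algebraMap D K (v i)) s) {h : K[X]} {ρ : ℕ}
    (hρ : s.card = ρ + 1) (hh : h.natDegree ≤ ρ)
    (hval : ∀ d : D, h.eval (algebraMap D K d) ∈ Dm K 𝔪) {τ : K}
    (hτ : ∀ i ∈ s, ∀ j ∈ s, i ≠ j →
      τ * (algebraMap D K (v i) - algebraMap D K (v j))⁻¹ ∈ Dm K 𝔪) :
    C (τ ^ ρ) * h ∈ Dpoly K 𝔪 := by
  have h1 : h = (Lagrange.interpolate s fun i => algebraMap D K (v i)) fun i =>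
      eval (algebraMap D K (v i)) h := by
    apply Lagrange.eq_interpolate hv
    rw [hρ]
    exact lt_of_le_of_lt degree_le_natDegree (by exact_mod_cast Nat.lt_succ_of_le hh)
  rw [h1, Lagrange.interpolate_apply, Finset.mul_sum]
  apply Subring.sum_mem
  intro i hi
  rw [mul_left_comm]
  apply Subring.mul_mem _ (C_mem_Dpoly (hval _))
  unfold Lagrange.basis
  have h2 : C (τ ^ ρ) = ∏ j ∈ s.erase i, C τ := by
    rw [Finset.prod_const, Finset.card_erase_of_mem hi, hρ, map_pow]; rfl
  rw [h2, ← Finset.prod_mul_distrib]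
  apply Subring.prod_mem
  intro j hj
  rw [Finset.mem_erase] at hj
  unfold Lagrange.basisDivisor
  rw [← mul_assoc, ← C_mul]
  apply Subring.mul_mem _ (C_mem_Dpoly (hτ i hi j hj.2 (fun h => hj.1 h.symm)))
  exact Subring.sub_mem _ X_mem_Dpoly (C_mem_Dpoly (map_mem_Dm _))

theorem Dm_of_mul {𝔪 : Ideal D} [h𝔪 : 𝔪.IsPrime] {κ : K} {s d : D} (hs : s ∉ 𝔪)
    (h : algebraMap D K s * κ = algebraMap D K d) : κ ∈ Dm K 𝔪 := ⟨s, hs, d, h⟩

/-- The case of small powers of elements of `𝔪`. -/
theorem pow_mem {𝔪 : Ideal D} [h𝔪 : 𝔪.IsPrime] {h : K[X]} {ρ : ℕ} (hh : h.natDegree ≤ ρ)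
    (hval : ∀ d : D, h.eval (algebraMap D K d) ∈ Dm K 𝔪) {t : D} (ht : t ∈ 𝔪) :
    C (algebraMap D K (t ^ (ρ * ρ + 1))) * h ∈ Dpoly K 𝔪 := by
  have hinj : Function.Injective (algebraMap D K) := IsFractionRing.injective D K
  by_cases ht0 : t = 0
  · rw [ht0, zero_pow (by omega), map_zero, map_zero, zero_mul]
    exact Subring.zero_mem _
  have hone : ∀ k : ℕ, k ≠ 0 → 1 - t ^ k ∉ 𝔪 := by
    intro k hk hmem
    apply h𝔪.ne_top
    rw [Ideal.eq_top_iff_one]
    have := Ideal.add_mem _ hmem (Ideal.pow_mem_of_mem _ ht k (Nat.pos_of_ne_zero hk))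
    rwa [sub_add_cancel] at this
  have hlt : ∀ i j : ℕ, i < j → t ^ i - t ^ j = t ^ i * (1 - t ^ (j - i)) := by
    intro i j hij
    rw [mul_sub, mul_one, ← pow_add, Nat.add_sub_cancel' hij.le]
  have hne : ∀ i j : ℕ, i < j → t ^ i ≠ t ^ j := by
    intro i j hij h
    have h1 := hlt i j hij
    rw [h, sub_self] at h1
    rcases mul_eq_zero.1 h1.symm with h2 | h2
    · exact pow_ne_zero j ht0 h2
    · exact hone (j - i) (by omega) (by rw [h2]; exact 𝔪.zero_mem)
  have key := interp (K := K) (𝔪 := 𝔪) (Finset.range (ρ + 1)) (fun i => t ^ i) (by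
      intro i _ j _ hij
      by_contra hij'
      rcases Nat.lt_or_gt_of_ne hij' with h1 | h1
      · exact hne i j h1 (hinj hij)
      · exact hne j i h1 (hinj hij.symm)) (Finset.card_range _) hh hval
    (τ := algebraMap D K (t ^ ρ)) (by
      intro i hi j hj hij
      rw [Finset.mem_range] at hi hj
      rcases Nat.lt_or_gt_of_ne hij with h1 | h1
      · refine Dm_of_mul (hone (j - i) (by omega)) (d := t ^ (ρ - i)) ?_
        have h2 : algebraMap D K (t ^ i) - algebraMap D K (t ^ j) ≠ 0 :=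
          sub_ne_zero.2 fun h => hne i j h1 (hinj h)
        rw [← mul_assoc, ← div_eq_mul_inv, div_eq_iff h2, ← map_sub, hlt i j h1, ← map_mul,
          ← map_mul]
        congr 1
        rw [← mul_assoc, ← pow_add, Nat.sub_add_cancel (by omega)]
        ring
      · refine Dm_of_mul (hone (i - j) (by omega)) (d := - t ^ (ρ - j)) ?_
        have h2 : algebraMap D K (t ^ i) - algebraMap D K (t ^ j) ≠ 0 :=
          sub_ne_zero.2 fun h => hne j i h1 (hinj h.symm)
        rw [← mul_assoc, ← div_eq_mul_inv, div_eq_iff h2, ← map_sub, ← map_mul, ← map_mul]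
        congr 1
        have h3 : t ^ i - t ^ j = -(t ^ j * (1 - t ^ (i - j))) := by rw [← hlt j i h1]; ring
        rw [h3, neg_mul_neg, ← mul_assoc, ← pow_add, Nat.sub_add_cancel (by omega)]
        ring)
  have h3 : C (algebraMap D K (t ^ (ρ * ρ + 1))) * h =
      C (algebraMap D K t) * (C ((algebraMap D K (t ^ ρ)) ^ ρ) * h) := by
    rw [← mul_assoc, ← C_mul, ← map_pow, ← map_mul, ← pow_mul, ← pow_succ']
  rw [h3]
  exact Subring.mul_mem _ (C_mem_Dpoly (map_mem_Dm t)) key

/-- The case of a large residue field. -/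
theorem large {𝔪 : Ideal D} [h𝔪 : 𝔪.IsMaximal] {h : K[X]} {ρ : ℕ} (hh : h.natDegree ≤ ρ)
    (hval : ∀ d : D, h.eval (algebraMap D K d) ∈ Dm K 𝔪)
    (e : Fin (ρ + 1) → D ⧸ 𝔪) (he : Function.Injective e) : h ∈ Dpoly K 𝔪 := by
  choose v hv using fun i => Ideal.Quotient.mk_surjective (e i)
  have hinj : Function.Injective (algebraMap D K) := IsFractionRing.injective D K
  have hne : ∀ i j, i ≠ j → v i - v j ∉ 𝔪 := by
    intro i j hij hmem
    apply hij
    apply he
    rw [← hv i, ← hv j]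
    exact Ideal.Quotient.eq.2 hmem
  have key := interp (K := K) (𝔪 := 𝔪) Finset.univ v (by
      intro i _ j _ hij
      by_contra hij'
      apply hne i j hij'
      rw [sub_eq_zero.2 (hinj hij)]
      exact 𝔪.zero_mem) (by simp) hh hval (τ := 1) (by
      intro i _ j _ hij
      refine Dm_of_mul (hne i j hij) (d := 1) ?_
      have h2 : algebraMap D K (v i) - algebraMap D K (v j) ≠ 0 := by
        rw [← map_sub]
        intro h
        apply hne i j hij
        rw [(map_eq_zero_iff _ hinj).1 h]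
        exact 𝔪.zero_mem
      rw [map_sub, one_mul, mul_inv_cancel₀ h2, map_one])
  rwa [one_pow, C_1, one_mul] at key

theorem dichotomy (X : Type*) (ρ : ℕ) : (∃ e : Fin (ρ + 1) → X, Function.Injective e) ∨
    (Finite X ∧ Nat.card X ≤ ρ) := by
  by_cases hinf : Finite X
  · by_cases hc : Nat.card X ≤ ρ
    · exact Or.inr ⟨hinf, hc⟩
    · left
      have hle : ρ + 1 ≤ Nat.card X := by omega
      exact ⟨fun i => (Finite.equivFin X).symm (Fin.castLE hle i),
        (Finite.equivFin X).symm.injective.comp (Fin.castLE_injective hle)⟩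
  · left
    have : Infinite X := not_finite_iff_infinite.1 hinf
    exact ⟨fun i => Infinite.natEmbedding X i, (Infinite.natEmbedding X).injective.comp
      Fin.val_injective⟩

/-- intersection of the localizations -/
theorem mem_of_forall (A : Subalgebra D B) {x : B}
    (h : ∀ 𝔪 : Ideal D, ∀ _ : 𝔪.IsMaximal, x ∈ Sm 𝔪 A) : x ∈ A := by
  let 𝔞 : Ideal D :=
    { carrier := {s | s • x ∈ A}
      zero_mem' := by simp [A.zero_mem]
      add_mem' := by
        intro a b ha hb
        rw [Set.mem_setOf_eq] at *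
        rw [add_smul]
        exact A.add_mem ha hb
      smul_mem' := by
        intro c a ha
        rw [Set.mem_setOf_eq] at *
        rw [smul_eq_mul, mul_smul]
        exact A.smul_mem ha c }
  have htop : 𝔞 = ⊤ := by
    by_contra hne
    obtain ⟨𝔪, h𝔪, hle⟩ := Ideal.exists_le_maximal 𝔞 hne
    obtain ⟨s, hs, hsx⟩ := h 𝔪 h𝔪
    exact hs (hle hsx)
  have h1 : (1 : D) ∈ 𝔞 := by rw [htop]; trivial
  have h2 : (1 : D) • x ∈ A := h1
  rwa [one_smul] at h2

end loc

/-! ### The universal polynomial -/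

section univ

variable (D : Type*) [CommRing D]

/-- `X^T ∏_{l=1}^T (X^l - 1)` -/
noncomputable def GG (T : ℕ) : D[X] := X ^ T * ∏ l ∈ Finset.range T, (X ^ (l + 1) - 1)

theorem GG_monic (T : ℕ) : (GG D T).Monic := by
  unfold GG
  apply (monic_X_pow T).mul
  apply monic_prod_of_monic
  intro l _
  have := monic_X_pow_sub_C (1 : D) (n := l + 1) (by omega)
  rwa [C_1] at this

variable {D}

theorem GG_zero {R : Type*} [CommRing R] [Finite R] (φ : D →+* R) {T : ℕ} (hT : Nat.card R ≤ T)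
    (y : R) : eval₂ φ y (GG D T) = 0 := by
  -- pigeonhole
  obtain ⟨i, j, hij, hy⟩ : ∃ i j : Fin (T + 1), i < j ∧ y ^ (i : ℕ) = y ^ (j : ℕ) := by
    have hni : ¬ Function.Injective fun i : Fin (T + 1) => y ^ (i : ℕ) := by
      intro hinj
      have := Nat.card_le_card_of_injective _ hinj
      rw [Nat.card_eq_fintype_card, Fintype.card_fin] at this
      omega
    rw [Function.Injective] at hni
    push Not at hni
    obtain ⟨i, j, h1, h2⟩ := hni
    rcases lt_or_gt_of_ne h2 with h3 | h3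
    · exact ⟨i, j, h3, h1⟩
    · exact ⟨j, i, h3, h1.symm⟩
  have hij' : (i : ℕ) < j := hij
  have hj := j.2
  unfold GG
  rw [eval₂_mul, eval₂_finset_prod, eval₂_pow, eval₂_X]
  have hl : (j : ℕ) - i - 1 ∈ Finset.range T := by
    rw [Finset.mem_range]; omega
  rw [← Finset.mul_prod_erase _ _ hl, ← mul_assoc]
  have h1 : (j : ℕ) - i - 1 + 1 = j - i := by omega
  have h2 : y ^ T * (y ^ ((j : ℕ) - i) - 1) = 0 := by
    have h3 : y ^ T = y ^ (T - i) * y ^ (i : ℕ) := by
      rw [← pow_add]; congr 1; omega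
    rw [h3, mul_assoc, mul_sub, ← pow_add, mul_one, Nat.add_sub_cancel' hij'.le, hy, sub_self,
      mul_zero]
  rw [h1]
  simp only [eval₂_sub, eval₂_pow, eval₂_X, eval₂_one]
  rw [h2, zero_mul]

/-- coefficients of remainders -/
theorem modByMonic_mem {M : D[X]} (hM : M.Monic) (𝔞 : Ideal D) {p : D[X]}
    (hp : ∀ n, p.coeff n ∈ 𝔞) (n : ℕ) : (p %ₘ M).coeff n ∈ 𝔞 := by
  rw [← Ideal.Quotient.eq_zero_iff_mem, ← coeff_map, map_modByMonic _ hM]
  have : p.map (Ideal.Quotient.mk 𝔞) = 0 := by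
    ext n
    rw [coeff_map, coeff_zero]
    exact Ideal.Quotient.eq_zero_iff_mem.2 (hp n)
  rw [this, zero_modByMonic, coeff_zero]

theorem GG_mod {𝔪 : Ideal D} [h𝔪 : 𝔪.IsMaximal] {q n : ℕ} [hfin : Finite (D ⧸ 𝔪)]
    (hq : Nat.card (D ⧸ 𝔪) ≤ q) {M : D[X]} (hM : M.Monic) (hn : M.natDegree ≤ n) {T : ℕ}
    (hT : (q + 1) ^ n ≤ T) (l : ℕ) : ((GG D T) %ₘ M).coeff l ∈ 𝔪 := by
  rw [← Ideal.Quotient.eq_zero_iff_mem, ← coeff_map, map_modByMonic _ hM]
  have hM' : (M.map (Ideal.Quotient.mk 𝔪)).Monic := hM.map _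
  suffices h : M.map (Ideal.Quotient.mk 𝔪) ∣ (GG D T).map (Ideal.Quotient.mk 𝔪) by
    rw [(modByMonic_eq_zero_iff_dvd hM').2 h, coeff_zero]
  rw [← AdjoinRoot.mk_eq_zero]
  let E := (AdjoinRoot.powerBasis' hM').basis.equivFun
  have hfin' : Finite (AdjoinRoot (M.map (Ideal.Quotient.mk 𝔪))) :=
    Finite.of_equiv _ E.symm.toEquiv
  have hcard : Nat.card (AdjoinRoot (M.map (Ideal.Quotient.mk 𝔪))) ≤ T := by
    rw [Nat.card_congr E.toEquiv, Nat.card_fun, Nat.card_eq_fintype_card (α := Fin _),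
      Fintype.card_fin, AdjoinRoot.powerBasis'_dim]
    refine le_trans ?_ hT
    refine le_trans (Nat.pow_le_pow_left (hq.trans (Nat.le_succ q)) _) ?_
    exact Nat.pow_le_pow_right (Nat.succ_pos q) ((natDegree_map_le).trans hn)
  have h1 := GG_zero ((AdjoinRoot.of (M.map (Ideal.Quotient.mk 𝔪))).comp (Ideal.Quotient.mk 𝔪))
    hcard (AdjoinRoot.root _)
  rw [← h1, ← eval₂_map]
  exact (AdjoinRoot.aeval_eq _).symm

/-- powers of finitely generated ideals -/
theorem span_pow_le (s : Finset D) (w : ℕ) (𝔮 : Ideal D) (h : ∀ t ∈ s, t ^ w ∈ 𝔮) :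
    (Ideal.span (s : Set D)) ^ (s.card * w + 1) ≤ 𝔮 := by
  classical
  induction s using Finset.induction_on with
  | empty => simp
  | insert a s ha ih =>
    rw [Finset.coe_insert, Ideal.span_insert, Finset.card_insert_of_notMem ha]
    have h1 : (s.card + 1) * w + 1 = w + (s.card * w + 1) := by ring
    rw [h1]
    refine (Ideal.sup_pow_add_le_pow_sup_pow).trans (sup_le ?_ ?_)
    · rw [Ideal.span_singleton_pow, Ideal.span_singleton_le_iff_mem]
      exact h a (Finset.mem_insert_self _ _)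
    · exact ih fun t ht => h t (Finset.mem_insert_of_mem ht)

end univ

/-! ### The main argument -/

section main

variable {D K B : Type*} [CommRing D] [IsDomain D] [Field K] [Algebra D K] [IsFractionRing D K]
  [IsIntegrallyClosed D] [Ring B] [Nontrivial B] [Algebra K B] [Module.Finite K B] [Algebra D B]
  [IsScalarTower D K B]

include K in
theorem exists_M {b : B} (hb : IsIntegral D b) : ∃ M : D[X], M.Monic ∧
    M.natDegree ≤ Module.finrank K B ∧ aeval b M = 0 := by
  obtain ⟨p, hp, hpb⟩ := hb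
  have hpb' : aeval b (p.map (algebraMap D K)) = 0 := by
    rw [aeval_map_algebraMap]
    exact hpb
  have hbK : IsIntegral K b := ⟨p.map (algebraMap D K), hp.map _, hpb'⟩
  obtain ⟨g, hg⟩ := IsIntegrallyClosed.eq_map_mul_C_of_dvd K hp (minpoly.dvd K b hpb')
  rw [(minpoly.monic hbK).leadingCoeff, C_1, mul_one] at hg
  have hinj : Function.Injective (algebraMap D K) := IsFractionRing.injective D K
  refine ⟨g, ?_, ?_, ?_⟩
  · have := minpoly.monic hbK
    rw [← hg] at this
    exact (hinj.monic_map_iff).2 this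
  · rw [← natDegree_map_eq_of_injective hinj g, hg]
    have h1 : minpoly K b = minpoly K (Algebra.lmul K B b) :=
      (minpoly.algHom_eq (Algebra.lmul K B) Algebra.lmul_injective b).symm
    rw [h1, ← LinearMap.charpoly_natDegree (Algebra.lmul K B b)]
    exact natDegree_le_of_dvd (LinearMap.minpoly_dvd_charpoly _) (LinearMap.charpoly_monic _).ne_zero
  · rw [← aeval_map_algebraMap K, hg]
    exact minpoly.aeval K b

/-- the local statement -/
theorem local_main (A : Subalgebra D B) {f : K[X]} (hfD : ∀ d : D, ∃ e : D,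
    f.eval (algebraMap D K d) = algebraMap D K e) {a : B} (ha : a ∈ A)
    (hfa : IsIntegral D (aeval a f)) (𝔪 : Ideal D) [h𝔪 : 𝔪.IsMaximal] {r n T ρ N : ℕ}
    (hr : f.natDegree ≤ r) (hn : Module.finrank K B = n) (hT : (r + 1) ^ n ≤ T)
    (hρ : r * n ≤ ρ) (hN : (n + 1) * (ρ * ρ + 1) + 1 ≤ N) :
    (aeval (aeval a f) (GG D T)) ^ N ∈ Sm 𝔪 A := by
  classical
  set b := aeval a f with hb
  rcases dichotomy (D ⧸ 𝔪) r with ⟨e, he⟩ | ⟨hfin, hcard⟩
  · have h1 : f ∈ Dpoly K 𝔪 := large hr (fun d => by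
      obtain ⟨e, he⟩ := hfD d
      rw [he]
      exact map_mem_Dm e) e he
    have h2 : b ∈ Sm 𝔪 A := aeval_mem_Sm A h1 ha
    apply Subalgebra.pow_mem
    rw [aeval_eq_sum_range]
    exact Subalgebra.sum_mem _ fun i _ => Subalgebra.smul_mem _ (Subalgebra.pow_mem _ h2 i) _
  · obtain ⟨M, hM, hMn, hMb⟩ := exists_M (K := K) hfa
    rw [hn] at hMn
    -- the remainder
    set R0 := (GG D T) %ₘ M with hR0
    have hR0m : ∀ l, R0.coeff l ∈ 𝔪 := GG_mod hcard hM hMn hT
    have hmod : ∀ p : D[X], aeval b (p %ₘ M) = aeval b p := by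
      intro p
      conv_rhs => rw [← modByMonic_add_div p M]
      rw [map_add, map_mul, hMb, zero_mul, add_zero]
    -- the ideal `𝔮`
    let 𝔮 : Ideal D :=
      { carrier := {t | ∀ l < n, t • b ^ l ∈ Sm 𝔪 A}
        zero_mem' := fun l _ => by rw [zero_smul]; exact Subalgebra.zero_mem _
        add_mem' := by
          intro x y hx hy l hl
          rw [add_smul]
          exact Subalgebra.add_mem _ (hx l hl) (hy l hl)
        smul_mem' := by
          intro c x hx l hl
          rw [smul_eq_mul, mul_smul]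
          exact Subalgebra.smul_mem _ (hx l hl) c }
    have h𝔮 : ∀ t ∈ 𝔪, t ^ (ρ * ρ + 1) ∈ 𝔮 := by
      intro t ht l hl
      have h1 : C (algebraMap D K (t ^ (ρ * ρ + 1))) * f ^ l ∈ Dpoly K 𝔪 := by
        apply pow_mem _ _ ht
        · refine natDegree_pow_le.trans ?_
          calc l * f.natDegree ≤ n * r := Nat.mul_le_mul hl.le hr
            _ ≤ ρ := by rw [mul_comm]; exact hρ
        · intro d
          obtain ⟨e, he⟩ := hfD d
          rw [eval_pow, he]
          exact Subring.pow_mem _ (map_mem_Dm e) _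
      have h2 := aeval_mem_Sm A h1 ha
      rw [map_mul, aeval_C, map_pow (aeval a) f l, ← hb, ← Algebra.smul_def, algebraMap_smul] at h2
      exact h2
    set J := Ideal.span (R0.coeffs : Set D) with hJ
    have hJ𝔮 : J ^ N ≤ 𝔮 := by
      refine le_trans (Ideal.pow_le_pow_right (m := R0.coeffs.card * (ρ * ρ + 1) + 1) ?_) ?_
      · refine le_trans ?_ hN
        gcongr
        refine (Finset.card_image_le).trans ?_
        refine (card_supp_le_succ_natDegree R0).trans ?_
        gcongr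
        exact (natDegree_modByMonic_le _ hM).trans hMn
      · apply span_pow_le
        intro t ht
        rw [mem_coeffs_iff] at ht
        obtain ⟨l, -, rfl⟩ := ht
        exact h𝔮 _ (hR0m l)
    have hR0J : ∀ l, R0.coeff l ∈ J := by
      intro l
      by_cases h0 : R0.coeff l = 0
      · rw [h0]; exact J.zero_mem
      · exact Ideal.subset_span (coeff_mem_coeffs h0)
    have hR0N : ∀ l, (R0 ^ N).coeff l ∈ J ^ N := by
      rw [← Ideal.mem_map_C_iff, Ideal.map_pow]
      exact Ideal.pow_mem_pow (Ideal.mem_map_C_iff.2 hR0J) N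
    have h3 : (aeval b (GG D T)) ^ N = aeval b ((R0 ^ N) %ₘ M) := by
      rw [hmod, map_pow, hmod]
    rw [h3]
    have hn0 : 0 < n := by
      rw [← hn]
      exact Module.finrank_pos
    have hdeg : ((R0 ^ N) %ₘ M).natDegree < n := by
      by_cases h0 : (R0 ^ N) %ₘ M = 0
      · rw [h0, natDegree_zero]; exact hn0
      · rw [natDegree_lt_iff_degree_lt h0]
        refine (degree_modByMonic_lt _ hM).trans_le ?_
        rw [degree_eq_natDegree hM.ne_zero]
        exact_mod_cast hMn
    rw [aeval_eq_sum_range' hdeg]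
    apply Subalgebra.sum_mem
    intro l hl
    exact hJ𝔮 (modByMonic_mem hM _ hR0N l) l (Finset.mem_range.1 hl)

/-- the easy inclusion -/
theorem easy (A : Subalgebra D B) (hA : Module.Finite D A) {a : B} (ha : a ∈ A) {f : K[X]} {k : ℕ}
    {c : ℕ → K[X]} (hc : ∀ i, aeval a (c i) ∈ A)
    (heq : f ^ k = ∑ i ∈ Finset.range k, c i * f ^ i) : IsIntegral D (aeval a f) := by
  classical
  set b := aeval a f with hb
  -- the module `∑ A b^i`
  let N : Submodule D B := ⨆ i ∈ Finset.range k,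
    (Subalgebra.toSubmodule A).map (LinearMap.mulRight D (b ^ i))
  have hmem : ∀ i < k, ∀ x ∈ A, x * b ^ i ∈ N := by
    intro i hi x hx
    have : (Subalgebra.toSubmodule A).map (LinearMap.mulRight D (b ^ i)) ≤ N :=
      le_iSup₂_of_le i (Finset.mem_range.2 hi) le_rfl
    exact this ⟨x, hx, rfl⟩
  have hfg : N.FG := by
    apply Submodule.fg_biSup
    intro i _
    apply Submodule.FG.map
    exact Module.Finite.iff_fg.1 hA
  have hbk : b ^ k = ∑ i ∈ Finset.range k, aeval a (c i) * b ^ i := by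
    have := congrArg (aeval a) heq
    rw [map_pow, map_sum] at this
    rw [this]
    apply Finset.sum_congr rfl
    intro i _
    rw [map_mul, map_pow]
  have hxk : ∀ x ∈ A, x * b ^ k ∈ N := by
    intro x hx
    rw [hbk, Finset.mul_sum]
    apply Submodule.sum_mem
    intro i hi
    rw [← mul_assoc]
    exact hmem i (Finset.mem_range.1 hi) _ (A.mul_mem hx (hc i))
  have hstable : N ≤ N.comap (LinearMap.mulRight D b) := by
    apply iSup₂_le
    intro i hi
    rw [Finset.mem_range] at hi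
    rintro _ ⟨x, hx, rfl⟩
    rw [Submodule.mem_comap, LinearMap.mulRight_apply, LinearMap.mulRight_apply, mul_assoc,
      ← pow_succ]
    rcases Nat.lt_or_ge (i + 1) k with h1 | h1
    · exact hmem (i + 1) h1 x hx
    · have : i + 1 = k := by omega
      rw [this]
      exact hxk x hx
  have hfin : Module.Finite D N := Module.Finite.iff_fg.2 hfg
  let φ : Module.End D N := (LinearMap.mulRight D b).restrict hstable
  obtain ⟨p, hp, hpφ⟩ := LinearMap.exists_monic_and_aeval_eq_zero D φ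
  have hone : (1 : B) ∈ N := by
    rcases Nat.eq_zero_or_pos k with h0 | h0
    · have h1 := hxk 1 A.one_mem
      rwa [h0, pow_zero, mul_one] at h1
    · have h1 := hmem 0 h0 1 A.one_mem
      rwa [pow_zero, mul_one] at h1
  refine ⟨p, hp, ?_⟩
  have hpow : ∀ i : ℕ, (((φ ^ i) ⟨1, hone⟩ : N) : B) = b ^ i := by
    intro i
    induction i with
    | zero => simp
    | succ i ih =>
      rw [pow_succ', Module.End.mul_apply]
      change ((φ ^ i) ⟨1, hone⟩ : B) * b = _
      rw [ih, pow_succ]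
  have h1 := congrArg (fun g : Module.End D N => ((g ⟨1, hone⟩ : N) : B)) hpφ
  simp only [LinearMap.zero_apply, Submodule.coe_zero] at h1
  rw [← h1, aeval_eq_sum_range, LinearMap.sum_apply, Submodule.coe_sum, eval₂_eq_sum_range]
  apply Finset.sum_congr rfl
  intro i _
  rw [LinearMap.smul_apply, Submodule.coe_smul, hpow, Algebra.smul_def]

/-- The general statement, for a finite-dimensional `K`-algebra `B` and a `D`-subalgebra `A` of `B`
which is finitely generated as a `D`-module. -/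
theorem hard (A : Subalgebra D B) {f : K[X]} (hf : ∀ a ∈ A, IsIntegral D (aeval a f)) :
    ∃ H : D[X], H.Monic ∧ 0 < H.natDegree ∧ ∀ a ∈ A, aeval a (aeval f H : K[X]) ∈ A := by
  have hinj : Function.Injective (algebraMap D K) := IsFractionRing.injective D K
  have hKB : Function.Injective (algebraMap K B) := (algebraMap K B).injective
  have hfD : ∀ d : D, ∃ e : D, f.eval (algebraMap D K d) = algebraMap D K e := by
    intro d
    have h1 := hf _ (A.algebraMap_mem d)
    rw [IsScalarTower.algebraMap_apply D K B, aeval_algebraMap_apply] at h1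
    have h2 : IsIntegral D (aeval (algebraMap D K d) f) :=
      (isIntegral_algHom_iff (IsScalarTower.toAlgHom D K B) hKB).1 h1
    obtain ⟨e, he⟩ := IsIntegrallyClosed.isIntegral_iff.1 h2
    exact ⟨e, by rw [he]; rfl⟩
  set n := Module.finrank K B
  set r := f.natDegree
  set T := (r + 1) ^ n
  set N := (n + 1) * (r * n * (r * n) + 1) + 1
  have hT : 0 < T := Nat.pow_pos (Nat.succ_pos r)
  refine ⟨(GG D T) ^ N, (GG_monic D T).pow N, ?_, ?_⟩
  · rw [(GG_monic D T).natDegree_pow]
    apply Nat.mul_pos (Nat.succ_pos _)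
    unfold GG
    rw [(monic_X_pow T).natDegree_mul, natDegree_X_pow]
    · omega
    · apply monic_prod_of_monic
      intro l _
      have := monic_X_pow_sub_C (1 : D) (n := l + 1) (by omega)
      rwa [C_1] at this
  · intro a ha
    apply mem_of_forall
    intro 𝔪 h𝔪
    have h1 := local_main A hfD ha (hf a ha) 𝔪 (r := r) (n := n) (T := T) (ρ := r * n) (N := N)
      le_rfl rfl le_rfl le_rfl le_rfl
    have h2 : aeval a (aeval f ((GG D T) ^ N) : K[X]) = (aeval (aeval a f) (GG D T)) ^ N := by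
      rw [map_pow, map_pow]
      congr 1
      exact (aeval_algHom_apply ((aeval a : K[X] →ₐ[K] B).restrictScalars D) f (GG D T)).symm
    rw [h2]
    exact h1

end main

/-! ### The statement -/

section stmt

open scoped TensorProduct

variable (D K A : Type*) [CommRing D] [Field K] [Algebra D K] [Ring A] [Algebra D A]

/-- `Int_K(A) = {f ∈ K[X] : f(A) ⊆ A}`; here `B = K ⊗_D A` and `a ∈ A` is identified with
`1 ⊗ a ∈ B`. -/
noncomputable def IntK : Subring K[X] where
  carrier := {f | ∀ a : A, ∃ a' : A, aeval ((1 : K) ⊗ₜ[D] a) f = (1 : K) ⊗ₜ[D] a'}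
  mul_mem' := by
    intro f g hf hg a
    obtain ⟨b, hb⟩ := hf a
    obtain ⟨c, hc⟩ := hg a
    exact ⟨b * c, by rw [map_mul, hb, hc, Algebra.TensorProduct.tmul_mul_tmul, one_mul]⟩
  one_mem' := fun a => ⟨1, by rw [map_one]; rfl⟩
  add_mem' := by
    intro f g hf hg a
    obtain ⟨b, hb⟩ := hf a
    obtain ⟨c, hc⟩ := hg a
    exact ⟨b + c, by rw [map_add, hb, hc, TensorProduct.tmul_add]⟩
  zero_mem' := fun a => ⟨0, by rw [map_zero, TensorProduct.tmul_zero]⟩
  neg_mem' := by
    intro f hf a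
    obtain ⟨b, hb⟩ := hf a
    exact ⟨-b, by rw [map_neg, hb, TensorProduct.tmul_neg]⟩

/-- `Int_K(A, A') = {f ∈ K[X] : f(A) ⊆ A'}` where `A'` is the set of the elements of `B` which are
integral over `D`. -/
def IntK' : Set K[X] := {f | ∀ a : A, IsIntegral D (aeval ((1 : K) ⊗ₜ[D] a) f)}

variable {D K A}

theorem mem_range_iff (b : K ⊗[D] A) :
    b ∈ (Algebra.TensorProduct.includeRight : A →ₐ[D] K ⊗[D] A).range ↔
      ∃ a : A, b = (1 : K) ⊗ₜ[D] a := by
  rw [AlgHom.mem_range]
  constructor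
  · rintro ⟨a, rfl⟩; exact ⟨a, rfl⟩
  · rintro ⟨a, rfl⟩; exact ⟨a, rfl⟩

theorem mem_IntK_iff (f : K[X]) : f ∈ IntK D K A ↔
    ∀ b ∈ (Algebra.TensorProduct.includeRight : A →ₐ[D] K ⊗[D] A).range,
      aeval b f ∈ (Algebra.TensorProduct.includeRight : A →ₐ[D] K ⊗[D] A).range := by
  constructor
  · intro hf b hb
    obtain ⟨a, rfl⟩ := (mem_range_iff b).1 hb
    exact (mem_range_iff _).2 (hf a)
  · intro hf a
    exact (mem_range_iff _).1 (hf _ ((mem_range_iff _).2 ⟨a, rfl⟩))

theorem nontrivial_tensor [IsDomain D] [IsFractionRing D K]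
    (hinj : Function.Injective (algebraMap D A)) : Nontrivial (K ⊗[D] A) := by
  refine ⟨⟨(1 : K) ⊗ₜ[D] (1 : A), 0, fun h => ?_⟩⟩
  have hloc : IsLocalizedModule (nonZeroDivisors D) (TensorProduct.mk D K A 1) :=
    (isLocalizedModule_iff_isBaseChange (nonZeroDivisors D) K _).2
      (TensorProduct.isBaseChange D A K)
  obtain ⟨s, hs⟩ := (IsLocalizedModule.eq_zero_iff (nonZeroDivisors D)
    (TensorProduct.mk D K A 1)).1 h
  have h1 : algebraMap D A (s : D) = 0 := by
    rw [Algebra.algebraMap_eq_smul_one]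
    exact hs
  rw [map_eq_zero_iff _ hinj] at h1
  exact nonZeroDivisors.coe_ne_zero s h1

end stmt

open scoped TensorProduct in
/-- **Main theorem.** Let `D` be an integrally closed domain with field of fractions `K` and `A ⊇ D`
a `D`-algebra which is torsion-free and finitely generated as a `D`-module. Then
`Int_K(A, A')` is the integral closure of `Int_K(A)` in `K(X)`. -/
theorem result (D K A : Type*) [CommRing D] [IsDomain D] [IsIntegrallyClosed D] [Field K]
    [Algebra D K] [IsFractionRing D K] [Ring A] [Algebra D A] [Module.Finite D A]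
    [Module.IsTorsionFree D A] (hinj : Function.Injective (algebraMap D A)) (y : RatFunc K) :
    ((algebraMap K[X] (RatFunc K)).comp (IntK D K A).subtype).IsIntegralElem y ↔
      ∃ f ∈ IntK' D K A, algebraMap K[X] (RatFunc K) f = y := by
  have hnt : Nontrivial (K ⊗[D] A) := nontrivial_tensor hinj
  have hKX : Function.Injective (algebraMap K[X] (RatFunc K)) := IsFractionRing.injective _ _
  set AB := (Algebra.TensorProduct.includeRight : A →ₐ[D] K ⊗[D] A).range with hAB
  constructor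
  · rintro ⟨p, hp, hpy⟩
    have hint : IsIntegral K[X] y := by
      refine ⟨p.map (IntK D K A).subtype, hp.map _, ?_⟩
      rw [eval₂_map]
      exact hpy
    obtain ⟨f, rfl⟩ := IsIntegrallyClosed.isIntegral_iff.1 hint
    refine ⟨f, fun a => ?_, rfl⟩
    have h1 : eval₂ (IntK D K A).subtype f p = 0 := by
      apply hKX
      rw [map_zero, ← hpy, hom_eval₂]
    have hfin : Module.Finite D AB := by
      have : Module.Finite D (LinearMap.range
          (Algebra.TensorProduct.includeRight : A →ₐ[D] K ⊗[D] A).toLinearMap) := inferInstance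
      exact this
    refine easy AB hfin (k := p.natDegree) (c := fun i => -(p.coeff i : K[X]))
      ((mem_range_iff _).2 ⟨a, rfl⟩) ?_ ?_
    · intro i
      rw [map_neg]
      exact neg_mem ((mem_IntK_iff _).1 (p.coeff i).2 _ ((mem_range_iff _).2 ⟨a, rfl⟩))
    · rw [eval₂_eq_sum_range, Finset.sum_range_succ] at h1
      have h2 : (IntK D K A).subtype (p.coeff p.natDegree) = 1 := by
        rw [show p.coeff p.natDegree = 1 from hp, map_one]
      rw [h2, one_mul] at h1
      rw [eq_neg_of_add_eq_zero_right h1, ← Finset.sum_neg_distrib]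
      apply Finset.sum_congr rfl
      intro i _
      rw [neg_mul]
      rfl
  · rintro ⟨f, hf, rfl⟩
    obtain ⟨H, hH, hdeg, hHA⟩ := hard AB (f := f) (by
      intro b hb
      obtain ⟨a, rfl⟩ := (mem_range_iff b).1 hb
      exact hf a)
    let ψ : D →+* IntK D K A := (algebraMap D K[X]).codRestrict (IntK D K A) (by
      intro d
      rw [mem_IntK_iff]
      intro b _
      rw [IsScalarTower.algebraMap_apply D K K[X], algebraMap_eq, aeval_C,
        ← IsScalarTower.algebraMap_apply]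
      exact AB.algebraMap_mem d)
    let F : IntK D K A := ⟨aeval f H, (mem_IntK_iff _).2 hHA⟩
    refine ⟨H.map ψ - C F, ?_, ?_⟩
    · apply (hH.map ψ).sub_of_left
      refine lt_of_le_of_lt degree_C_le ?_
      rw [← natDegree_pos_iff_degree_pos, hH.natDegree_map]
      exact hdeg
    · rw [eval₂_sub, eval₂_C, eval₂_map]
      have h1 : eval₂ (((algebraMap K[X] (RatFunc K)).comp (IntK D K A).subtype).comp ψ)
          (algebraMap K[X] (RatFunc K) f) H = algebraMap K[X] (RatFunc K) (aeval f H) := by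
        rw [aeval_def, hom_eval₂]
        congr 1
      rw [h1]
      exact sub_self _

end Pool.Agent.Results.MP_457b0e_al.IntegralClosure
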